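import Mathlib
import Pool.Agent.HT.Final

/-!
# MP_b157f3_co: the Helly number of consistently ordered hyperplane transversals is `d + 2`

The definitions (`Consistent`, `Separated`, `SepHelly`, ...) are in `Pool/Agent/HT/Problem.lean`.
-/

namespace Pool.Agent.Results.MP_b157f3_co.HellyNumber

open Pool.Agent.HT

/-- For `d ≥ 2` the least `h` such that a `(d-1)`-ordered family of pairwise disjoint compact convex
sets in `ℝ^d`, `(d-2)`-separated, is met consistently by an oriented hyperplane as soon as every
subfamily of at most `h` members is, equals `d + 2`. -/
theorem result (d k : ℕ) (hk : d = k + 1) (hd : 2 ≤ d) :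
    IsLeast {h : ℕ | SepHelly k h} (d + 2) := by
  subst hk
  exact ⟨sepHelly_upper k (by omega), fun h hh => sepHelly_lower k (by omega) h hh⟩

end Pool.Agent.Results.MP_b157f3_co.HellyNumber
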