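import Mathlib
import Pool.Agent.HT.Final

/-!
# MP_b157f3_co: merely pairwise disjoint families have no Helly number in dimension `d ≥ 3`

The definitions (`Consistent`, `Helly`, ...) are in `Pool/Agent/HT/Problem.lean`.
-/

namespace Pool.Agent.Results.MP_b157f3_co.NoHellyForDisjoint

open Pool.Agent.HT

/-- For `d ≥ 3` and every `h` there is a `(d-1)`-ordered family of pairwise disjoint compact convex
sets in `ℝ^d` all of whose subfamilies of at most `h` members are met consistently by an oriented
hyperplane while the whole family is not. -/
theorem result (d k : ℕ) (hk : d = k + 1) (hd : 3 ≤ d) (h : ℕ) : ¬ Helly k h := by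
  subst hk
  exact not_helly k (by omega) h

end Pool.Agent.Results.MP_b157f3_co.NoHellyForDisjoint
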